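import Pool.Agent.Q72.AL.Stm2

/-!
# Project AL of helper72: the mean of the weighted mass `N2` (helper40)
-/

set_option autoImplicit false

open Complex MeasureTheory Filter Topology Set
open H345 (Zo aa XX)
open Pool.Agent.Q72.AL

namespace Pool.Agent.Q40.AL

lemma zz_cont (Z : Finset ℝ) : Continuous (fun p : ℝ × ℝ => ZZ Z 1 p.2 p.1) := by
  unfold ZZ
  fun_prop

lemma n2_cont (Z : Finset ℝ) : Continuous (fun T : ℝ => N2 Z T) := by
  unfold N2
  fun_prop

lemma n2_nonneg (Z : Finset ℝ) (T : ℝ) : 0 ≤ N2 Z T := by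
  unfold N2
  positivity

theorem n2 (h1 : J_N2P) (h2 : J_MV) (h3 : J_DDB) (h4 : J_DDC) (h5 : J_WT) : J_N2 := by
  intro hRH a C0 hC0
  obtain ⟨X1, hX1⟩ := h1 hRH a
  obtain ⟨Cm, hCm, hm⟩ := h2
  obtain ⟨Cd, hCd, hd⟩ := h3
  obtain ⟨hw, hwc, hW0, -⟩ := h5
  set C1 : ℝ := 4 + 2 * |a| with hC1
  have hC1pos : 4 ≤ C1 := by rw [hC1]; have := abs_nonneg a; linarith
  set C' : ℝ := 2 * (W0 * Cd + 2 * Cm * Real.exp (2 * C1)) + 8 * C0 ^ 2 with hC'
  have hC'pos : 0 < C' := by rw [hC']; positivity
  refine ⟨16 * C' + 1, max X1 (Real.exp C1), by positivity, ?_⟩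
  intro X δ hX hδ hδ1 hyp Z hZ
  have hXe : Real.exp C1 ≤ X := (le_max_right _ _).trans hX
  have hXX1 : X1 ≤ X := (le_max_left _ _).trans hX
  have hX1' : 1 ≤ X := by
    have : (1 : ℝ) ≤ Real.exp C1 := Real.one_le_exp (by linarith)
    linarith
  have hX0 : 0 < X := by linarith
  set L : ℝ := Real.log X with hL
  have hLC : C1 ≤ L := by
    rw [hL, Real.le_log_iff_exp_le hX0]
    exact hXe
  have hL0 : 0 < L := by linarith
  have hexpL : Real.exp L = X := Real.exp_log hX0
  have hX2 : X ≤ 2 * X := by linarith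
  have hpt := hX1 X δ hXX1 hδ hδ1 hyp Z hZ.sub
  -- the continuous weight
  set g : ℝ → ℝ := fun T => wt (max T X / X) with hg
  have hgeq : ∀ T, X ≤ T → g T = wt (T / X) := by
    intro T hT
    rw [hg]
    simp only [max_eq_left hT]
  have hgc : Continuous g := by
    rw [hg]
    refine hwc.comp_continuous (by fun_prop) ?_
    intro T
    have : 0 < max T X := lt_of_lt_of_le hX0 (le_max_right _ _)
    exact div_pos this hX0
  have hgb : ∀ T, X ≤ T → T ≤ 2 * X → 0 ≤ g T ∧ g T ≤ 1 := by
    intro T h1 h2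
    rw [hgeq T h1]
    refine hw _ ⟨?_, ?_⟩
    · rw [le_div_iff₀ hX0]; linarith
    · rw [div_le_iff₀ hX0]; linarith
  set F : ℝ → ℝ → ℝ := fun T v => g T * ‖ZZ Z 1 v T‖ ^ 2 with hF
  have hFc : Continuous (Function.uncurry F) := by
    have h := zz_cont Z
    have e : Function.uncurry F = fun p : ℝ × ℝ => g p.1 * ‖ZZ Z 1 p.2 p.1‖ ^ 2 := by
      ext p
      rfl
    rw [e]
    exact (hgc.comp continuous_fst).mul ((h.norm).pow 2)
  have hv1 : -L ≤ L + C1 := by linarith
  have hbd : L + 4 + 2 * |a| = L + C1 := by rw [hC1]; ring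
  -- step A
  have hA : ∫ T in X..(2 * X), wt (T / X) * N2 Z T ≤
      ∫ T in X..(2 * X), (4 / L * (∫ v in (-L)..(L + C1), F T v) + g T) := by
    refine intervalIntegral.integral_mono_on hX2 ?_ ?_ ?_
    · refine ContinuousOn.intervalIntegrable ?_
      have e : ∀ T ∈ uIcc X (2 * X), wt (T / X) * N2 Z T = g T * N2 Z T := by
        intro T hT
        rw [uIcc_of_le hX2] at hT
        rw [hgeq T hT.1]
      exact ((hgc.mul (n2_cont Z)).continuousOn).congr e
    · refine Continuous.intervalIntegrable ?_ _ _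
      refine (continuous_const.mul ?_).add hgc
      exact intervalIntegral.continuous_parametric_intervalIntegral_of_continuous' hFc _ _
    · intro T hT
      have h := hpt T hT.1 hT.2
      rw [← hL, hbd] at h
      obtain ⟨g0, g1⟩ := hgb T hT.1 hT.2
      rw [← hgeq T hT.1]
      calc g T * N2 Z T ≤ g T * (4 / L * (∫ v in (-L)..(L + C1), ‖ZZ Z 1 v T‖ ^ 2) + 1) :=
            mul_le_mul_of_nonneg_left h g0
        _ = 4 / L * (∫ v in (-L)..(L + C1), F T v) + g T := by
            rw [hF]
            simp only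
            rw [intervalIntegral.integral_const_mul]
            ring
  -- step B
  have hB : ∫ T in X..(2 * X), (4 / L * (∫ v in (-L)..(L + C1), F T v) + g T) =
      4 / L * (∫ v in (-L)..(L + C1), ∫ T in X..(2 * X), F T v) + ∫ T in X..(2 * X), g T := by
    rw [intervalIntegral.integral_add, intervalIntegral.integral_const_mul,
      intervalIntegral_intervalIntegral_swap]
    · refine (hFc.continuousOn.integrableOn_compact
        ((isCompact_uIcc (a := X) (b := 2 * X)).prod
          (isCompact_uIcc (a := -L) (b := L + C1)))).mono_set ?_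
      exact Set.prod_mono uIoc_subset_uIcc uIoc_subset_uIcc
    · refine Continuous.intervalIntegrable ?_ _ _
      exact continuous_const.mul
        (intervalIntegral.continuous_parametric_intervalIntegral_of_continuous' hFc _ _)
    · exact hgc.intervalIntegrable _ _
  -- step C
  have hDc : Continuous (fun p : ℝ × ℝ => DD 1 p.1 p.2) := (h4 1 le_rfl (by norm_num)).1
  have hC : ∀ v ∈ Icc (-L) (L + C1), ∫ T in X..(2 * X), F T v ≤ C' * X := by
    intro v hv
    have hvabs : |v| ≤ 3 * L := by
      rw [abs_le]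
      constructor
      · linarith [hv.1]
      · linarith [hv.2]
    have hDv : Continuous (fun T : ℝ => DD 1 v T) := by
      have := hDc.comp (Continuous.prodMk (continuous_const (y := v)) continuous_id)
      exact this
    have hexpv : Real.exp (-v) ≤ X := by
      rw [← hexpL]
      exact Real.exp_le_exp.2 (by linarith [hv.1])
    have hmono : ∫ T in X..(2 * X), F T v ≤
        ∫ T in X..(2 * X), (2 * (g T * ‖DD 1 v T‖ ^ 2) + 8 * C0 ^ 2) := by
      refine intervalIntegral.integral_mono_on hX2 ?_ ?_ ?_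
      · refine Continuous.intervalIntegrable ?_ _ _
        exact hFc.comp (Continuous.prodMk continuous_id (continuous_const (y := v)))
      · refine Continuous.intervalIntegrable ?_ _ _
        exact (continuous_const.mul (hgc.mul (hDv.norm.pow 2))).add continuous_const
      · intro T hT
        have hef := hZ.ef 1 v T le_rfl (by norm_num) hT.1 hT.2 (by rw [← hL]; exact hvabs)
        obtain ⟨g0, g1⟩ := hgb T hT.1 hT.2
        have h2 : ‖ZZ Z 1 v T‖ ≤ ‖DD 1 v T‖ + 2 * C0 := by
          have e1 : C0 * (1 + Real.exp (-v)) / X ≤ 2 * C0 := by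
            rw [div_le_iff₀ hX0]
            nlinarith
          have e2 : ‖ZZ Z 1 v T‖ ≤ ‖DD 1 v T‖ + ‖DD 1 v T - ZZ Z 1 v T‖ := by
            have := norm_sub_le (DD 1 v T) (DD 1 v T - ZZ Z 1 v T)
            rwa [sub_sub_cancel] at this
          linarith
        have h3 : ‖ZZ Z 1 v T‖ ^ 2 ≤ 2 * ‖DD 1 v T‖ ^ 2 + 8 * C0 ^ 2 := by
          have n0 := norm_nonneg (ZZ Z 1 v T)
          have n1 := norm_nonneg (DD 1 v T)
          have h4 : ‖ZZ Z 1 v T‖ ^ 2 ≤ (‖DD 1 v T‖ + 2 * C0) ^ 2 := pow_le_pow_left₀ n0 h2 2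
          nlinarith [sq_nonneg (‖DD 1 v T‖ - 2 * C0)]
        calc F T v = g T * ‖ZZ Z 1 v T‖ ^ 2 := rfl
          _ ≤ g T * (2 * ‖DD 1 v T‖ ^ 2 + 8 * C0 ^ 2) := mul_le_mul_of_nonneg_left h3 g0
          _ ≤ 2 * (g T * ‖DD 1 v T‖ ^ 2) + 8 * C0 ^ 2 := by
            have : 0 ≤ 8 * C0 ^ 2 := by positivity
            nlinarith
    have hval : ∫ T in X..(2 * X), (2 * (g T * ‖DD 1 v T‖ ^ 2) + 8 * C0 ^ 2) =
        2 * (∫ T in X..(2 * X), wt (T / X) * ‖DD 1 v T‖ ^ 2) + 8 * C0 ^ 2 * X := by
      rw [intervalIntegral.integral_add, intervalIntegral.integral_const_mul,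
        intervalIntegral.integral_const]
      · congr 1
        · congr 1
          refine intervalIntegral.integral_congr ?_
          intro T hT
          rw [uIcc_of_le hX2] at hT
          simp only [hgeq T hT.1]
        · rw [smul_eq_mul]; ring
      · refine Continuous.intervalIntegrable ?_ _ _
        exact (continuous_const.mul (hgc.mul (hDv.norm.pow 2)))
      · exact continuous_const.intervalIntegrable _ _
    have hmv := hm 1 v X le_rfl (by norm_num) hX1'
    obtain ⟨-, -, -, -, -, hAA, -⟩ := hd 1 v le_rfl (by norm_num)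
    have e1 : Real.exp v ≤ X * Real.exp C1 := by
      rw [← hexpL, ← Real.exp_add]
      exact Real.exp_le_exp.2 hv.2
    have e2 : Real.exp (2 * v) ≤ X ^ 2 * Real.exp (2 * C1) := by
      have : Real.exp (2 * v) ≤ Real.exp (2 * (L + C1)) := Real.exp_le_exp.2 (by linarith [hv.2])
      refine this.trans (le_of_eq ?_)
      rw [mul_add, Real.exp_add, two_mul L, Real.exp_add, hexpL]
      ring
    have e3 : X * Real.exp C1 ≤ X ^ 2 * Real.exp (2 * C1) := by
      have h6 : Real.exp C1 ≤ Real.exp (2 * C1) := Real.exp_le_exp.2 (by linarith)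
      have h7 : X ≤ X ^ 2 := by nlinarith
      exact mul_le_mul h7 h6 (Real.exp_pos _).le (by positivity)
    have e4 : Cm * (Real.exp v + Real.exp (2 * v)) / X ≤ 2 * Cm * Real.exp (2 * C1) * X := by
      rw [div_le_iff₀ hX0]
      have h8 : Real.exp v + Real.exp (2 * v) ≤ 2 * (X ^ 2 * Real.exp (2 * C1)) := by linarith
      have h9 := mul_le_mul_of_nonneg_left h8 hCm.le
      nlinarith
    have e5 : (∫ T in X..(2 * X), wt (T / X) * ‖DD 1 v T‖ ^ 2) ≤
        X * W0 * Cd + 2 * Cm * Real.exp (2 * C1) * X := by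
      have h10 := (abs_le.1 hmv).2
      have h11 : X * W0 * AA 1 v ≤ X * W0 * Cd := mul_le_mul_of_nonneg_left hAA (by positivity)
      linarith
    calc ∫ T in X..(2 * X), F T v ≤ 2 * (∫ T in X..(2 * X), wt (T / X) * ‖DD 1 v T‖ ^ 2) +
          8 * C0 ^ 2 * X := by rw [← hval]; exact hmono
      _ ≤ 2 * (X * W0 * Cd + 2 * Cm * Real.exp (2 * C1) * X) + 8 * C0 ^ 2 * X := by linarith
      _ = C' * X := by rw [hC']; ring
  -- step D
  have hD : ∫ v in (-L)..(L + C1), ∫ T in X..(2 * X), F T v ≤ 4 * L * (C' * X) := by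
    have hsw : Continuous (Function.uncurry fun v T : ℝ => F T v) := by
      have := hFc.comp continuous_swap
      exact this
    calc ∫ v in (-L)..(L + C1), ∫ T in X..(2 * X), F T v ≤ ∫ v in (-L)..(L + C1), C' * X := by
          refine intervalIntegral.integral_mono_on hv1 ?_ ?_ hC
          · refine Continuous.intervalIntegrable ?_ _ _
            exact intervalIntegral.continuous_parametric_intervalIntegral_of_continuous' hsw _ _
          · exact continuous_const.intervalIntegrable _ _
      _ = (2 * L + C1) * (C' * X) := by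
          rw [intervalIntegral.integral_const, smul_eq_mul]
          ring
      _ ≤ 4 * L * (C' * X) := by
          refine mul_le_mul_of_nonneg_right (by linarith) (by positivity)
  have hE : ∫ T in X..(2 * X), g T ≤ X := by
    calc ∫ T in X..(2 * X), g T ≤ ∫ T in X..(2 * X), (1 : ℝ) := by
          refine intervalIntegral.integral_mono_on hX2 (hgc.intervalIntegrable _ _)
            (continuous_const.intervalIntegrable _ _) ?_
          intro T hT
          exact (hgb T hT.1 hT.2).2
      _ = X := by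
          rw [intervalIntegral.integral_const, smul_eq_mul]
          ring
  calc ∫ T in X..(2 * X), wt (T / X) * N2 Z T
      ≤ 4 / L * (∫ v in (-L)..(L + C1), ∫ T in X..(2 * X), F T v) + ∫ T in X..(2 * X), g T := by
        rw [← hB]; exact hA
    _ ≤ 4 / L * (4 * L * (C' * X)) + X := by
        refine add_le_add ?_ hE
        exact mul_le_mul_of_nonneg_left hD (by positivity)
    _ = (16 * C' + 1) * X := by
        field_simp
        ring

end Pool.Agent.Q40.AL
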